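import Mathlib

open scoped ContDiff
open Set Filter

namespace Pool.Agent.Results.MP_1dc069_an.RealMaximalLineable

/-- A super fast growing sequence. -/
def b : ℕ → ℕ
  | 0 => 1
  | n + 1 => (2 * n + 4).factorial * (n + 1) ^ (2 * n + 4) * 8 ^ (n + 1) * (b n) ^ (2 * n + 4)

lemma b_pos (n : ℕ) : 0 < b n := by
  induction n with
  | zero => simp [b]
  | succ n ih =>
    simp only [b]
    positivity

lemma b_fact (n : ℕ) (hn : 1 ≤ n) : (2 * n + 2).factorial * n ^ (2 * n + 2) ≤ b n := by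
  obtain ⟨m, rfl⟩ : ∃ m, n = m + 1 := ⟨n - 1, by omega⟩
  have e : 2 * (m + 1) + 2 = 2 * m + 4 := by ring
  rw [e]
  simp only [b]
  have h1 : 0 < 8 ^ (m + 1) * (b m) ^ (2 * m + 4) := by
    have := b_pos m
    positivity
  calc (2 * m + 4).factorial * (m + 1) ^ (2 * m + 4)
      ≤ (2 * m + 4).factorial * (m + 1) ^ (2 * m + 4) * (8 ^ (m + 1) * (b m) ^ (2 * m + 4)) :=
        Nat.le_mul_of_pos_right _ h1
    _ = _ := by ring

lemma b_succ_dom (n : ℕ) : 8 ^ (n + 1) * (b n) ^ (2 * (n + 1) + 2) ≤ b (n + 1) := by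
  have e : 2 * (n + 1) + 2 = 2 * n + 4 := by ring
  rw [e]
  simp only [b]
  have h1 : 0 < (2 * n + 4).factorial * (n + 1) ^ (2 * n + 4) := by
    positivity
  calc 8 ^ (n + 1) * (b n) ^ (2 * n + 4)
      ≤ ((2 * n + 4).factorial * (n + 1) ^ (2 * n + 4)) * (8 ^ (n + 1) * (b n) ^ (2 * n + 4)) :=
        Nat.le_mul_of_pos_left _ h1
    _ = _ := by ring

lemma b_le_succ (n : ℕ) : b n ≤ b (n + 1) := by
  refine le_trans ?_ (b_succ_dom n)
  have h := b_pos n
  calc b n = (b n) ^ 1 := (pow_one _).symm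
    _ ≤ (b n) ^ (2 * (n + 1) + 2) := Nat.pow_le_pow_right h (by omega)
    _ ≤ 8 ^ (n + 1) * (b n) ^ (2 * (n + 1) + 2) := Nat.le_mul_of_pos_left _ (by positivity)

lemma b_mono : Monotone b := monotone_nat_of_le_succ b_le_succ

lemma b_pow8 (n : ℕ) : 8 ^ n ≤ b n := by
  cases n with
  | zero => simp [b]
  | succ n =>
    refine le_trans ?_ (b_succ_dom n)
    exact Nat.le_mul_of_pos_right _ (by have := b_pos n; positivity)

lemma b_dom {m n : ℕ} (h : m < n) : 8 ^ n * (b m) ^ (2 * n + 2) ≤ b n := by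
  obtain ⟨k, rfl⟩ : ∃ k, n = k + 1 := ⟨n - 1, by omega⟩
  refine le_trans ?_ (b_succ_dom k)
  have h1 : b m ≤ b k := b_mono (by omega)
  gcongr

/-- real version of b -/
noncomputable def B (n : ℕ) : ℝ := (b n : ℝ)

lemma B_pos (n : ℕ) : 0 < B n := by
  have := b_pos n
  unfold B
  positivity

lemma B_ge_one (n : ℕ) : 1 ≤ B n := by
  have := b_pos n
  unfold B
  exact_mod_cast this

lemma B_fact (n : ℕ) (hn : 1 ≤ n) : ((2 * n + 2).factorial : ℝ) * (n : ℝ) ^ (2 * n + 2) ≤ B n := by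
  unfold B
  exact_mod_cast b_fact n hn

lemma B_pow8 (n : ℕ) : (8 : ℝ) ^ n ≤ B n := by
  unfold B
  exact_mod_cast b_pow8 n

lemma B_dom {m n : ℕ} (h : m < n) : 8 ^ n * (B m) ^ (2 * n + 2) ≤ B n := by
  unfold B
  exact_mod_cast b_dom h

/-- the m-th term -/
noncomputable def u (c : ℕ → ℝ) (m : ℕ) (x : ℝ) : ℝ := c m / (B m) ^ (2 * m) * Real.cos (B m * x)

lemma u_contDiff (c : ℕ → ℝ) (m : ℕ) : ContDiff ℝ ∞ (u c m) := by
  unfold u
  fun_prop

lemma u_iter (c : ℕ → ℝ) (m k : ℕ) (x : ℝ) :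
    iteratedDeriv k (u c m) x
      = c m / (B m) ^ (2 * m) * ((B m) ^ k * iteratedDeriv k Real.cos (B m * x)) := by
  have h1 : u c m = fun x => c m / (B m) ^ (2 * m) * (fun y => Real.cos (B m * y)) x := rfl
  rw [h1, iteratedDeriv_const_mul_field]
  congr 1
  rw [iteratedDeriv_comp_const_mul (Real.contDiff_cos)]

lemma u_iter_le (c : ℕ → ℝ) (m k : ℕ) (x : ℝ) :
    |iteratedDeriv k (u c m) x| ≤ |c m| * (B m) ^ k / (B m) ^ (2 * m) := by
  rw [u_iter]
  have h1 : |iteratedDeriv k Real.cos (B m * x)| ≤ 1 := Real.abs_iteratedDeriv_cos_le_one k _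
  have h2 := B_pos m
  rw [abs_mul, abs_mul, abs_div, abs_of_pos (pow_pos h2 k), abs_of_pos (pow_pos h2 (2 * m))]
  calc |c m| / B m ^ (2 * m) * (B m ^ k * |iteratedDeriv k Real.cos (B m * x)|)
      ≤ |c m| / B m ^ (2 * m) * (B m ^ k * 1) := by gcongr
    _ = _ := by ring

/-- summable bound -/
noncomputable def v (C : ℝ) (k m : ℕ) : ℝ := C * 2 ^ m * (B m) ^ k / (B m) ^ (2 * m)

lemma v_summable (C : ℝ) (k : ℕ) : Summable (v C k) := by
  have hg : Summable (fun m : ℕ => |C| * (1 / 4 : ℝ) ^ m) :=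
    (summable_geometric_of_lt_one (by norm_num) (by norm_num)).mul_left _
  refine Summable.of_norm_bounded_eventually_nat hg ?_
  filter_upwards [eventually_ge_atTop (k + 1)] with m hm
  unfold v
  have hB := B_pos m
  rw [Real.norm_eq_abs, abs_div, abs_mul, abs_mul, abs_of_pos (pow_pos hB k),
    abs_of_pos (pow_pos hB (2 * m)), abs_of_pos (by positivity : (0 : ℝ) < 2 ^ m)]
  rw [div_le_iff₀ (by positivity)]
  have h1 : (B m) ^ k * 8 ^ m ≤ (B m) ^ (2 * m) := by
    calc (B m) ^ k * 8 ^ m ≤ (B m) ^ k * (B m) := by gcongr; exact B_pow8 m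
      _ = (B m) ^ (k + 1) := by ring
      _ ≤ (B m) ^ (2 * m) := pow_le_pow_right₀ (B_ge_one m) (by omega)
  have h2 : (2 : ℝ) ^ m = (1 / 4) ^ m * 8 ^ m := by
    rw [← mul_pow]; norm_num
  calc |C| * 2 ^ m * B m ^ k = |C| * (1 / 4) ^ m * (B m ^ k * 8 ^ m) := by rw [h2]; ring
    _ ≤ |C| * (1 / 4) ^ m * B m ^ (2 * m) := by gcongr

/-- the function -/
noncomputable def F (c : ℕ → ℝ) (x : ℝ) : ℝ := ∑' m, u c m x

lemma u_fd_le {c : ℕ → ℝ} {C : ℝ} (hc : ∀ m, |c m| ≤ C * 2 ^ m) (k m : ℕ) (x : ℝ) :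
    ‖iteratedFDeriv ℝ k (u c m) x‖ ≤ v C k m := by
  rw [norm_iteratedFDeriv_eq_norm_iteratedDeriv, Real.norm_eq_abs]
  refine (u_iter_le c m k x).trans ?_
  unfold v
  have hB := B_pos m
  gcongr
  exact hc m

lemma F_contDiff {c : ℕ → ℝ} {C : ℝ} (hc : ∀ m, |c m| ≤ C * 2 ^ m) : ContDiff ℝ ∞ (F c) := by
  unfold F
  exact contDiff_tsum (N := ⊤) (v := v C) (fun m => u_contDiff c m) (fun k _ => v_summable C k)
    (fun k m x _ => u_fd_le hc k m x)

lemma F_iter {c : ℕ → ℝ} {C : ℝ} (hc : ∀ m, |c m| ≤ C * 2 ^ m) (k : ℕ) (x : ℝ) :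
    iteratedDeriv k (F c) x = ∑' m, iteratedDeriv k (u c m) x := by
  have h := iteratedFDeriv_tsum (𝕜 := ℝ) (N := ⊤) (f := u c) (v := v C)
    (fun m => u_contDiff c m) (fun k _ => v_summable C k)
    (fun k m x _ => u_fd_le hc k m x) (k := k) le_top
  have h2 : iteratedFDeriv ℝ k (F c) x = ∑' m, iteratedFDeriv ℝ k (u c m) x := congrFun h x
  have hs : Summable (fun m => iteratedFDeriv ℝ k (u c m) x) :=
    Summable.of_norm_bounded (v_summable C k) (fun m => u_fd_le hc k m x)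
  simp only [iteratedDeriv]
  rw [h2, ContinuousMultilinearMap.tsum_eval hs]

lemma iter_summable {c : ℕ → ℝ} {C : ℝ} (hc : ∀ m, |c m| ≤ C * 2 ^ m) (k : ℕ) (x : ℝ) :
    Summable (fun m => iteratedDeriv k (u c m) x) := by
  refine Summable.of_norm_bounded (v_summable C k) (fun m => ?_)
  rw [← norm_iteratedFDeriv_eq_norm_iteratedDeriv]
  exact u_fd_le hc k m x

lemma term_le {c : ℕ → ℝ} {C : ℝ} (hc : ∀ m, |c m| ≤ C * 2 ^ m) (hC : 0 ≤ C) {n k : ℕ}
    (hk : k ≤ 2 * n + 2) (m : ℕ) (hmn : m ≠ n) (x : ℝ) :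
    |iteratedDeriv k (u c m) x| ≤ (4 * C * (B n / 2 ^ n)) * (1 / 2) ^ m := by
  refine (u_iter_le c m k x).trans ?_
  have hB := B_pos m
  have hBn := B_pos n
  have h0 : |c m| * (B m) ^ k / (B m) ^ (2 * m) ≤ C * 2 ^ m * (B m ^ (2 * n + 2) / B m ^ (2 * m)) := by
    rw [← mul_div_assoc]
    gcongr
    · exact hc m
    · exact B_ge_one m
  refine h0.trans ?_
  rcases lt_or_gt_of_ne hmn with h | h
  · -- m < n
    have h1 : B m ^ (2 * n + 2) / B m ^ (2 * m) ≤ B m ^ (2 * n + 2) := by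
      apply div_le_self (by positivity)
      exact one_le_pow₀ (B_ge_one m)
    have h2 : B m ^ (2 * n + 2) ≤ B n / 8 ^ n := by
      rw [le_div_iff₀ (by positivity)]
      linarith [B_dom h, mul_comm (B m ^ (2 * n + 2)) ((8 : ℝ) ^ n)]
    have h3 : (4 : ℝ) ^ m ≤ 4 ^ n := pow_le_pow_right₀ (by norm_num) h.le
    have e1 : (8 : ℝ) ^ n = 4 ^ n * 2 ^ n := by rw [← mul_pow]; norm_num
    have e2 : (2 : ℝ) ^ m = 4 ^ m * (1 / 2) ^ m := by rw [← mul_pow]; norm_num
    calc C * 2 ^ m * (B m ^ (2 * n + 2) / B m ^ (2 * m))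
        ≤ C * 2 ^ m * (B n / 8 ^ n) := by
          have := h1.trans h2
          gcongr
      _ = C * (B n / 2 ^ n) * (1 / 2) ^ m * (4 ^ m / 4 ^ n) := by
          rw [e1, e2]; field_simp
      _ ≤ C * (B n / 2 ^ n) * (1 / 2) ^ m * 1 := by
          gcongr
          rw [div_le_one (by positivity)]
          exact h3
      _ ≤ (4 * C * (B n / 2 ^ n)) * (1 / 2) ^ m := by
          have : 0 ≤ C * (B n / 2 ^ n) * (1 / 2) ^ m := by positivity
          linarith
  · -- n < m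
    have h1 : B m ^ (2 * n + 2) / B m ^ (2 * m) ≤ 8 ^ (n + 1) / 8 ^ m := by
      rcases Nat.eq_or_lt_of_le (Nat.succ_le_of_lt h) with h' | h'
      · have : m = n + 1 := by omega
        subst this
        have e : 2 * (n + 1) = 2 * n + 2 := by ring
        rw [e, div_self (by positivity), div_self (by positivity)]
      · obtain ⟨j, rfl⟩ : ∃ j, m = n + 2 + j := ⟨m - (n + 2), by omega⟩
        rw [div_le_div_iff₀ (by positivity) (by positivity)]
        have h8 := B_pow8 (n + 2 + j)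
        have h1' := B_ge_one (n + 2 + j)
        calc B (n + 2 + j) ^ (2 * n + 2) * 8 ^ (n + 2 + j)
            ≤ B (n + 2 + j) ^ (2 * n + 2) * B (n + 2 + j) := by gcongr
          _ = B (n + 2 + j) ^ (2 * n + 3) := by ring
          _ ≤ B (n + 2 + j) ^ (2 * (n + 2 + j)) := pow_le_pow_right₀ h1' (by omega)
          _ ≤ 8 ^ (n + 1) * B (n + 2 + j) ^ (2 * (n + 2 + j)) := by
              apply le_mul_of_one_le_left (by positivity)
              exact one_le_pow₀ (by norm_num)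
    have h8 := B_pow8 n
    have e2 : (2 : ℝ) ^ m / 8 ^ m = (1 / 2) ^ m * (1 / 2) ^ m := by
      rw [← div_pow, ← mul_pow]; norm_num
    have h3 : (1 / 2 : ℝ) ^ m ≤ (1 / 2) ^ (n + 1) :=
      pow_le_pow_of_le_one (by norm_num) (by norm_num) h
    calc C * 2 ^ m * (B m ^ (2 * n + 2) / B m ^ (2 * m))
        ≤ C * 2 ^ m * (8 ^ (n + 1) / 8 ^ m) := by gcongr
      _ = C * 8 ^ (n + 1) * (2 ^ m / 8 ^ m) := by ring
      _ = C * 8 ^ (n + 1) * ((1 / 2) ^ m * (1 / 2) ^ m) := by rw [e2]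
      _ ≤ C * 8 ^ (n + 1) * ((1 / 2) ^ (n + 1) * (1 / 2) ^ m) := by gcongr
      _ = 4 * C * (8 ^ n / 2 ^ n) * (1 / 2) ^ m := by
          rw [pow_succ, pow_succ, one_div_pow]; ring
      _ ≤ (4 * C * (B n / 2 ^ n)) * (1 / 2) ^ m := by gcongr

lemma F_iter_approx {c : ℕ → ℝ} {C : ℝ} (hc : ∀ m, |c m| ≤ C * 2 ^ m) (hC : 0 ≤ C) {n k : ℕ}
    (hk : k ≤ 2 * n + 2) (x : ℝ) :
    |iteratedDeriv k (F c) x - iteratedDeriv k (u c n) x| ≤ 8 * C * (B n / 2 ^ n) := by
  rw [F_iter hc, (iter_summable hc k x).tsum_eq_add_tsum_ite n, add_sub_cancel_left]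
  have hg : HasSum (fun m : ℕ => (4 * C * (B n / 2 ^ n)) * (1 / 2 : ℝ) ^ m)
      ((4 * C * (B n / 2 ^ n)) * 2) := by
    have := (hasSum_geometric_of_lt_one (by norm_num : (0 : ℝ) ≤ 1 / 2) (by norm_num)).mul_left
      (4 * C * (B n / 2 ^ n))
    have e : (1 - 1 / 2 : ℝ)⁻¹ = 2 := by norm_num
    rw [e] at this
    exact this
  have := tsum_of_norm_bounded (f := fun m => if m = n then 0 else iteratedDeriv k (u c m) x) hg (by
    intro m
    have hBn := B_pos n
    by_cases hm : m = n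
    · simp only [hm, if_true, norm_zero]
      positivity
    · simp only [hm, if_false, Real.norm_eq_abs]
      exact term_le hc hC hk m hm x)
  rw [Real.norm_eq_abs] at this
  linarith

lemma term_main (c : ℕ → ℝ) (n : ℕ) (x : ℝ) :
    ∃ k, 2 * n + 1 ≤ k ∧ k ≤ 2 * n + 2 ∧ 3 / 5 * |c n| * B n ≤ |iteratedDeriv k (u c n) x| := by
  set y := B n * x with hy
  have hB := B_pos n
  have hB1 := B_ge_one n
  by_cases h : 3 / 5 ≤ |Real.sin y|
  · refine ⟨2 * n + 1, le_rfl, by omega, ?_⟩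
    rw [u_iter]
    have e : |iteratedDeriv (2 * n + 1) Real.cos (B n * x)| = |Real.sin y| := by
      rw [Real.iteratedDeriv_odd_cos]
      simp [abs_mul, hy]
    rw [abs_mul, abs_mul, e, abs_div, abs_of_pos (pow_pos hB _), abs_of_pos (pow_pos hB _)]
    calc 3 / 5 * |c n| * B n = |c n| * B n * (3 / 5) := by ring
      _ ≤ |c n| * B n * |Real.sin y| := by gcongr
      _ = |c n| / B n ^ (2 * n) * (B n ^ (2 * n + 1) * |Real.sin y|) := by
          rw [pow_succ]; field_simp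
  · refine ⟨2 * n + 2, by omega, le_rfl, ?_⟩
    have h2 : 3 / 5 ≤ |Real.cos y| := by
      by_contra hcon
      push Not at h hcon
      have h3 := Real.sin_sq_add_cos_sq y
      have h4 : Real.sin y ^ 2 < (3 / 5) ^ 2 := by
        rw [← sq_abs]; gcongr
      have h5 : Real.cos y ^ 2 < (3 / 5) ^ 2 := by
        rw [← sq_abs]; gcongr
      norm_num at h4 h5
      linarith
    rw [u_iter]
    have e : |iteratedDeriv (2 * n + 2) Real.cos (B n * x)| = |Real.cos y| := by
      rw [show 2 * n + 2 = 2 * (n + 1) by ring, Real.iteratedDeriv_even_cos]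
      simp [abs_mul, hy]
    rw [abs_mul, abs_mul, e, abs_div, abs_of_pos (pow_pos hB _), abs_of_pos (pow_pos hB _)]
    calc 3 / 5 * |c n| * B n = |c n| * B n * (3 / 5) := by ring
      _ ≤ |c n| * B n * |Real.cos y| := by gcongr
      _ ≤ (|c n| * B n * |Real.cos y|) * B n := le_mul_of_one_le_right (by positivity) hB1
      _ = |c n| / B n ^ (2 * n) * (B n ^ (2 * n + 2) * |Real.cos y|) := by
          rw [pow_add]; field_simp

/-- the key growth property -/
lemma growth {c : ℕ → ℝ} {C c0 : ℝ} (hc : ∀ m, |c m| ≤ C * 2 ^ m) (hC : 0 ≤ C) (hc0 : 0 < c0)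
    (hlow : ∀ᶠ n in atTop, c0 ≤ |c n|) :
    ∀ᶠ n : ℕ in atTop, ∀ x : ℝ, ∃ k : ℕ, 2 * n + 1 ≤ k ∧ k ≤ 2 * n + 2 ∧
      c0 / 2 * (k.factorial * (n : ℝ) ^ k) ≤ |iteratedDeriv k (F c) x| := by
  have hlim : Tendsto (fun n : ℕ => 8 * C * (1 / 2 : ℝ) ^ n) atTop (nhds 0) := by
    have := (tendsto_pow_atTop_nhds_zero_of_lt_one (by norm_num : (0 : ℝ) ≤ 1 / 2)
      (by norm_num)).const_mul (8 * C)
    simpa using this
  have hev : ∀ᶠ n : ℕ in atTop, 8 * C * (1 / 2 : ℝ) ^ n < c0 / 10 :=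
    hlim.eventually (gt_mem_nhds (by positivity))
  filter_upwards [hlow, hev, eventually_ge_atTop 1] with n h1 h2 h3 x
  obtain ⟨k, hk1, hk2, hk3⟩ := term_main c n x
  refine ⟨k, hk1, hk2, ?_⟩
  have h4 := F_iter_approx hc hC hk2 x
  have hB := B_pos n
  have h5 : c0 / 2 * B n ≤ |iteratedDeriv k (F c) x| := by
    have h6 : 3 / 5 * c0 * B n ≤ |iteratedDeriv k (u c n) x| := by
      refine le_trans ?_ hk3
      gcongr
    have h7 : 8 * C * (B n / 2 ^ n) ≤ c0 / 10 * B n := by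
      calc 8 * C * (B n / 2 ^ n) = 8 * C * (1 / 2 : ℝ) ^ n * B n := by
            rw [one_div_pow]; ring
        _ ≤ c0 / 10 * B n := by gcongr
    have h8 := abs_sub_abs_le_abs_sub (iteratedDeriv k (u c n) x) (iteratedDeriv k (F c) x)
    rw [abs_sub_comm] at h8
    linarith
  refine le_trans ?_ h5
  have h9 : (k.factorial : ℝ) * (n : ℝ) ^ k ≤ B n := by
    refine le_trans ?_ (B_fact n h3)
    have hn1 : (1 : ℝ) ≤ n := by exact_mod_cast h3
    have hf : (k.factorial : ℝ) ≤ ((2 * n + 2).factorial : ℝ) := by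
      exact_mod_cast Nat.factorial_le hk2
    have hp : (n : ℝ) ^ k ≤ (n : ℝ) ^ (2 * n + 2) := pow_le_pow_right₀ hn1 hk2
    exact mul_le_mul hf hp (by positivity) (by positivity)
  gcongr


/-- The real vector space of infinitely differentiable functions `f : I → ℝ`. The derivatives are
taken inside `I` (so they are one-sided at an endpoint of `I`); the extension of `f` by `0` outside
`I` only serves to write `f` as a function on `ℝ` and plays no role in derivatives within `I`. -/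
noncomputable def smoothFunctions (I : Set ℝ) : Submodule ℝ (I → ℝ) where
  carrier := {f | ContDiffOn ℝ ∞ (Function.extend Subtype.val f 0) I}
  add_mem' := by
    intro f g hf hg
    refine (ContDiffOn.add hf hg).congr ?_
    intro x hx
    have h1 : Function.extend Subtype.val (f + g) 0 x = (f + g) ⟨x, hx⟩ :=
      Subtype.val_injective.extend_apply (f + g) 0 (⟨x, hx⟩ : I)
    have h2 : Function.extend Subtype.val f 0 x = f ⟨x, hx⟩ :=
      Subtype.val_injective.extend_apply f 0 (⟨x, hx⟩ : I)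
    have h3 : Function.extend Subtype.val g 0 x = g ⟨x, hx⟩ :=
      Subtype.val_injective.extend_apply g 0 (⟨x, hx⟩ : I)
    rw [h1, Pi.add_apply, h2, h3]
  zero_mem' := by
    have h : ContDiffOn ℝ ∞ (fun _ : ℝ => (0 : ℝ)) I := contDiffOn_const
    refine h.congr ?_
    intro x hx
    exact Subtype.val_injective.extend_apply (0 : I → ℝ) 0 (⟨x, hx⟩ : I)
  smul_mem' := by
    intro a f hf
    refine (ContDiffOn.const_smul a hf).congr ?_
    intro x hx
    have h1 : Function.extend Subtype.val (a • f) 0 x = (a • f) ⟨x, hx⟩ :=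
      Subtype.val_injective.extend_apply (a • f) 0 (⟨x, hx⟩ : I)
    have h2 : Function.extend Subtype.val f 0 x = f ⟨x, hx⟩ :=
      Subtype.val_injective.extend_apply f 0 (⟨x, hx⟩ : I)
    rw [h1, Pi.smul_apply, h2]

/-- `ρ(f, x)`: the radius of convergence (in `[0, ∞]`) of the Taylor series
`∑ f^(n)(x) / n! * (t - x)^n` of `f : I → ℝ` at the point `x` of `I`. -/
noncomputable def taylorRadius (I : Set ℝ) (f : I → ℝ) (x : I) : ENNReal :=
  (FormalMultilinearSeries.ofScalars ℝ (fun n : ℕ =>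
    iteratedDerivWithin n (Function.extend Subtype.val f 0) I x / (n.factorial : ℝ))).radius

/-- `PS(I)`: the infinitely differentiable `f : I → ℝ` whose Taylor series has radius of
convergence zero at every point of `I`. -/
def pringsheimSingular (I : Set ℝ) : Set (I → ℝ) :=
  {f | f ∈ smoothFunctions I ∧ ∀ x : I, taylorRadius I f x = 0}

lemma extend_eqOn (I : Set ℝ) (G : ℝ → ℝ) :
    EqOn (Function.extend Subtype.val (I.domRestrict G) 0) G I := by
  intro x hx
  exact Subtype.val_injective.extend_apply (I.domRestrict G) 0 (⟨x, hx⟩ : I)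

lemma restrict_mem_smooth (I : Set ℝ) {G : ℝ → ℝ} (hG : ContDiff ℝ ∞ G) :
    I.domRestrict G ∈ smoothFunctions I := by
  show ContDiffOn ℝ ∞ (Function.extend Subtype.val (I.domRestrict G) 0) I
  exact hG.contDiffOn.congr (extend_eqOn I G)

lemma iter_restrict {I : Set ℝ} (hI : UniqueDiffOn ℝ I) {G : ℝ → ℝ} (hG : ContDiff ℝ ∞ G)
    (n : ℕ) (x : I) :
    iteratedDerivWithin n (Function.extend Subtype.val (I.domRestrict G) 0) I x
      = iteratedDeriv n G x := by
  rw [iteratedDerivWithin_congr (extend_eqOn I G) x.2]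
  exact iteratedDerivWithin_eq_iteratedDeriv hI (hG.of_le (by exact_mod_cast le_top)).contDiffAt x.2

lemma uniqueDiffOn_interval {I : Set ℝ} (h1 : I.OrdConnected) (h2 : I.Nontrivial) :
    UniqueDiffOn ℝ I :=
  uniqueDiffOn_convex h1.convex (h1.convex.nontrivial_iff_nonempty_interior.1 h2)

lemma radius_zero {I : Set ℝ} (hI : UniqueDiffOn ℝ I) {c : ℕ → ℝ} {C c0 : ℝ}
    (hc : ∀ m, |c m| ≤ C * 2 ^ m) (hC : 0 ≤ C) (hc0 : 0 < c0)
    (hlow : ∀ᶠ n : ℕ in atTop, c0 ≤ |c n|) (x : I) :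
    taylorRadius I (I.domRestrict (F c)) x = 0 := by
  by_contra hne
  have hpos : 0 < taylorRadius I (I.domRestrict (F c)) x := pos_iff_ne_zero.mpr hne
  obtain ⟨r, hr0, hr⟩ := ENNReal.lt_iff_exists_nnreal_btwn.1 hpos
  have hr0' : 0 < (r : ℝ) := by exact_mod_cast hr0
  unfold taylorRadius at hr
  obtain ⟨D, hD, hD'⟩ := FormalMultilinearSeries.norm_mul_pow_le_of_lt_radius _ hr
  have hg := growth hc hC hc0 hlow
  have hpow : Tendsto (fun n : ℕ => (2 : ℝ) ^ n) atTop atTop :=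
    tendsto_pow_atTop_atTop_of_one_lt (by norm_num)
  have hn2 : ∀ᶠ n : ℕ in atTop, 2 / (r : ℝ) ≤ n :=
    tendsto_natCast_atTop_atTop.eventually (eventually_ge_atTop (2 / (r : ℝ)))
  obtain ⟨n, h1, h2, h3⟩ := (hg.and (hn2.and
    (hpow.eventually (eventually_gt_atTop (2 * D / c0))))).exists
  obtain ⟨k, hk1, hk2, hk3⟩ := h1 x
  have h4 := hD' k
  rw [FormalMultilinearSeries.ofScalars_norm, iter_restrict hI (F_contDiff hc), norm_div,
    Real.norm_eq_abs, Real.norm_eq_abs, abs_of_pos (by positivity : (0 : ℝ) < (k.factorial : ℝ))] at h4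
  have h5 : c0 / 2 * (n : ℝ) ^ k ≤ |iteratedDeriv k (F c) x| / (k.factorial : ℝ) := by
    rw [le_div_iff₀ (by positivity)]
    linarith
  have h6 : c0 / 2 * (n : ℝ) ^ k * (r : ℝ) ^ k ≤ D := by
    refine le_trans ?_ h4
    gcongr
  have h7 : (2 : ℝ) ≤ n * r := by
    rw [div_le_iff₀ hr0'] at h2
    exact h2
  have h8 : (2 : ℝ) ^ n ≤ (n : ℝ) ^ k * (r : ℝ) ^ k := by
    rw [← mul_pow]
    calc (2 : ℝ) ^ n ≤ 2 ^ k := pow_le_pow_right₀ (by norm_num) (by omega)
      _ ≤ (n * r) ^ k := by gcongr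
  have h9 : c0 / 2 * (2 : ℝ) ^ n ≤ D := by
    refine le_trans ?_ h6
    rw [mul_assoc]
    gcongr
  rw [div_lt_iff₀ hc0] at h3
  linarith

/-- lower bound for nontrivial real combinations of powers `t^m`, `t ∈ (1,2)` -/
lemma comb_low (l : Ioo (1 : ℝ) 2 →₀ ℝ) (hl : l ≠ 0) :
    ∃ c0 : ℝ, 0 < c0 ∧ ∀ᶠ m : ℕ in atTop, c0 ≤ |∑ t ∈ l.support, l t * (t : ℝ) ^ m| := by
  have hne : l.support.Nonempty := Finsupp.support_nonempty_iff.mpr hl
  set t0 := l.support.max' hne with ht0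
  have ht0mem : t0 ∈ l.support := Finset.max'_mem _ _
  have hl0 : l t0 ≠ 0 := Finsupp.mem_support_iff.mp ht0mem
  refine ⟨|l t0| / 2, by positivity, ?_⟩
  have ht1 : 1 < (t0 : ℝ) := t0.2.1
  have hlim : Tendsto (fun m : ℕ => ∑ t ∈ l.support, l t * ((t : ℝ) / t0) ^ m) atTop
      (nhds (∑ t ∈ l.support, if t = t0 then l t0 else 0)) := by
    apply tendsto_finsetSum
    intro t ht
    by_cases h : t = t0
    · rw [h]
      have : (t0 : ℝ) / t0 = 1 := div_self (by linarith)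
      simp only [if_true]
      rw [this]
      simp
    · rw [if_neg h]
      have hlt : t < t0 := lt_of_le_of_ne (Finset.le_max' _ _ ht) h
      have hlt' : (t : ℝ) < t0 := hlt
      have h0 : Tendsto (fun m : ℕ => ((t : ℝ) / t0) ^ m) atTop (nhds 0) := by
        apply tendsto_pow_atTop_nhds_zero_of_lt_one
        · have := t.2.1
          positivity
        · rw [div_lt_one (by linarith)]
          exact hlt'
      simpa using h0.const_mul (l t)
  have hsum : (∑ t ∈ l.support, if t = t0 then l t0 else 0) = l t0 := by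
    rw [Finset.sum_ite_eq' l.support t0 (fun _ => l t0)]
    simp [ht0mem]
  rw [hsum] at hlim
  have habs := hlim.abs
  have hev : ∀ᶠ m : ℕ in atTop, |l t0| / 2 < |∑ t ∈ l.support, l t * ((t : ℝ) / t0) ^ m| :=
    habs.eventually (lt_mem_nhds (by have := abs_pos.mpr hl0; linarith))
  filter_upwards [hev] with m hm
  have e : ∑ t ∈ l.support, l t * (t : ℝ) ^ m
      = (t0 : ℝ) ^ m * ∑ t ∈ l.support, l t * ((t : ℝ) / t0) ^ m := by
    rw [Finset.mul_sum]
    apply Finset.sum_congr rfl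
    intro t _
    rw [div_pow]
    have : (t0 : ℝ) ^ m ≠ 0 := by positivity
    field_simp
  rw [e, abs_mul, abs_of_pos (by positivity : (0 : ℝ) < (t0 : ℝ) ^ m)]
  have h1 : (1 : ℝ) ≤ (t0 : ℝ) ^ m := one_le_pow₀ ht1.le
  calc |l t0| / 2 ≤ |∑ t ∈ l.support, l t * ((t : ℝ) / t0) ^ m| := hm.le
    _ ≤ (t0 : ℝ) ^ m * |∑ t ∈ l.support, l t * ((t : ℝ) / t0) ^ m| :=
        le_mul_of_one_le_left (abs_nonneg _) h1

lemma comb_up (l : Ioo (1 : ℝ) 2 →₀ ℝ) (m : ℕ) :
    |∑ t ∈ l.support, l t * (t : ℝ) ^ m| ≤ (∑ t ∈ l.support, |l t|) * 2 ^ m := by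
  refine (Finset.abs_sum_le_sum_abs _ _).trans ?_
  rw [Finset.sum_mul]
  apply Finset.sum_le_sum
  intro t _
  have h1 := t.2.1
  have h2 := t.2.2
  rw [abs_mul, abs_of_pos (by positivity : (0 : ℝ) < (t : ℝ) ^ m)]
  gcongr

/-- the generating family -/
noncomputable def gen (I : Set ℝ) (t : Ioo (1 : ℝ) 2) : I → ℝ :=
  I.domRestrict (F (fun m => (t : ℝ) ^ m))

lemma pow_bound (t : Ioo (1 : ℝ) 2) (m : ℕ) : |(t : ℝ) ^ m| ≤ 1 * 2 ^ m := by
  have h1 := t.2.1
  have h2 := t.2.2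
  rw [abs_of_pos (by positivity), one_mul]
  gcongr

lemma lc_eq (I : Set ℝ) (l : Ioo (1 : ℝ) 2 →₀ ℝ) :
    Finsupp.linearCombination ℝ (gen I) l
      = I.domRestrict (F (fun m => ∑ t ∈ l.support, l t * (t : ℝ) ^ m)) := by
  rw [Finsupp.linearCombination_apply, Finsupp.sum]
  ext x
  simp only [Finset.sum_apply, Pi.smul_apply, smul_eq_mul, gen, Set.domRestrict_apply]
  unfold F
  have hs : ∀ t ∈ l.support, Summable (fun m => l t * u (fun m => (t : ℝ) ^ m) m x) := by
    intro t _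
    apply Summable.mul_left
    have := iter_summable (pow_bound t) 0 (x : ℝ)
    simpa using this
  calc ∑ t ∈ l.support, l t * ∑' m, u (fun m => (t : ℝ) ^ m) m x
      = ∑ t ∈ l.support, ∑' m, l t * u (fun m => (t : ℝ) ^ m) m x := by
        apply Finset.sum_congr rfl
        intro t _
        rw [tsum_mul_left]
    _ = ∑' m, ∑ t ∈ l.support, l t * u (fun m => (t : ℝ) ^ m) m x := by
        rw [Summable.tsum_finsetSum hs]
    _ = _ := by
        congr 1
        ext m
        simp only [u]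
        rw [Finset.sum_div, Finset.sum_mul]
        apply Finset.sum_congr rfl
        intro t _
        ring

lemma lc_radius {I : Set ℝ} (hI : UniqueDiffOn ℝ I) (l : Ioo (1 : ℝ) 2 →₀ ℝ) (hl : l ≠ 0) (x : I) :
    taylorRadius I (Finsupp.linearCombination ℝ (gen I) l) x = 0 := by
  obtain ⟨c0, hc0, hlow⟩ := comb_low l hl
  rw [lc_eq]
  exact radius_zero hI (comb_up l) (Finset.sum_nonneg fun _ _ => abs_nonneg _) hc0 hlow x

lemma lc_mem (I : Set ℝ) (l : Ioo (1 : ℝ) 2 →₀ ℝ) :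
    Finsupp.linearCombination ℝ (gen I) l ∈ smoothFunctions I := by
  rw [lc_eq]
  exact restrict_mem_smooth I (F_contDiff (comb_up l))

lemma zero_radius (I : Set ℝ) (hI : UniqueDiffOn ℝ I) (x : I) : taylorRadius I 0 x ≠ 0 := by
  have h : (0 : I → ℝ) = I.domRestrict (fun _ => (0 : ℝ)) := rfl
  unfold taylorRadius
  have h2 : (fun n : ℕ => iteratedDerivWithin n
      (Function.extend Subtype.val (0 : I → ℝ) 0) I x / (n.factorial : ℝ)) = 0 := by
    ext n
    rw [h, iter_restrict hI contDiff_const]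
    simp
  rw [h2]
  have h3 : FormalMultilinearSeries.ofScalars ℝ (0 : ℕ → ℝ) = 0 := by
    ext n
    simp [FormalMultilinearSeries.ofScalars]
  rw [h3]
  simp

lemma gen_linInd {I : Set ℝ} (hI : UniqueDiffOn ℝ I) (hne : I.Nonempty) :
    LinearIndependent ℝ (gen I) := by
  rw [linearIndependent_iff]
  intro l hl
  by_contra hcon
  obtain ⟨x, hx⟩ := hne
  have h1 := lc_radius hI l hcon ⟨x, hx⟩
  rw [hl] at h1
  exact zero_radius I hI ⟨x, hx⟩ h1

lemma card_smooth (I : Set ℝ) (hne : I.Nonempty) :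
    Cardinal.mk (smoothFunctions I) ≤ Cardinal.continuum := by
  have : Nonempty I := hne.to_subtype
  let D : ℕ → I := TopologicalSpace.denseSeq I
  let φ : smoothFunctions I → (ℕ → ℝ) := fun f n => f.1 (D n)
  have hφ : Function.Injective φ := by
    intro f g hfg
    have hcont : ∀ f : smoothFunctions I, Continuous f.1 := by
      intro f
      have hf : ContDiffOn ℝ ∞ (Function.extend Subtype.val f.1 0) I := f.2
      have h1 := hf.continuousOn.domRestrict
      have h2 : I.domRestrict (Function.extend Subtype.val f.1 0) = f.1 := by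
        ext x
        exact Subtype.val_injective.extend_apply f.1 0 x
      rw [h2] at h1
      exact h1
    apply Subtype.ext
    apply Continuous.ext_on (TopologicalSpace.denseRange_denseSeq I) (hcont f) (hcont g)
    rintro _ ⟨n, rfl⟩
    exact congrFun hfg n
  have h := Cardinal.mk_le_of_injective hφ
  refine h.trans ?_
  simp [Cardinal.mk_real]

/-- For every nondegenerate interval `I`, with real scalars, `PS(I)` is maximal lineable in
`C^∞(I)`. -/
theorem result (I : Set ℝ) (hI : I.OrdConnected) (hI' : I.Nontrivial) :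
    Module.rank ℝ (smoothFunctions I) = Cardinal.continuum ∧
    ∃ M : Submodule ℝ (I → ℝ), (M : Set (I → ℝ)) ⊆ pringsheimSingular I ∪ {0} ∧
      Module.rank ℝ M = Module.rank ℝ (smoothFunctions I) := by
  have hU := uniqueDiffOn_interval hI hI'
  have hlin := gen_linInd hU hI'.nonempty
  set M := Submodule.span ℝ (Set.range (gen I)) with hM
  have hrank : Module.rank ℝ M = Cardinal.continuum := by
    rw [hM, rank_span hlin]
    rw [Cardinal.mk_range_eq _ hlin.injective]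
    exact Cardinal.mk_Ioo_real (by norm_num)
  have hmem : ∀ f ∈ M, ∃ l, Finsupp.linearCombination ℝ (gen I) l = f := by
    intro f hf
    rw [hM, Finsupp.mem_span_range_iff_exists_finsupp] at hf
    obtain ⟨l, hl⟩ := hf
    exact ⟨l, by rw [Finsupp.linearCombination_apply]; exact hl⟩
  have hle : M ≤ smoothFunctions I := by
    intro f hf
    obtain ⟨l, rfl⟩ := hmem f hf
    exact lc_mem I l
  have h1 : Module.rank ℝ (smoothFunctions I) = Cardinal.continuum := by
    apply le_antisymm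
    · exact (rank_le_card ℝ _).trans (card_smooth I hI'.nonempty)
    · rw [← hrank]
      exact Submodule.rank_mono hle
  refine ⟨h1, M, ?_, by rw [h1, hrank]⟩
  intro f hf
  obtain ⟨l, rfl⟩ := hmem f hf
  by_cases hl : l = 0
  · right
    simp [hl]
  · left
    exact ⟨lc_mem I l, fun x => lc_radius hU l hl x⟩

end Pool.Agent.Results.MP_1dc069_an.RealMaximalLineable
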